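import Mathlib

set_option autoImplicit false
open Set Filter Topology

namespace Pool.Agent.Results.MP_e93574_an.FixedPoint

/-- the set `Γ` of the problem -/
structure IsGamma (γ : ℝ → ℝ) : Prop where
  cont : ContinuousOn γ (Set.Ici 0)
  mono : ∀ s t, 0 ≤ s → s ≤ t → γ s ≤ γ t
  subadd : ∀ s t, 0 ≤ s → 0 ≤ t → γ (s + t) ≤ γ s + γ t
  nonneg : ∀ t, 0 ≤ t → 0 ≤ γ t
  zero_iff : ∀ t, 0 ≤ t → (γ t = 0 ↔ t = 0)

/-- the class `𝒜` of the problem -/
def IsClassA (θ : ℝ → ℝ) : Prop :=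
  (∀ t, 0 ≤ t → 0 ≤ θ t) ∧
    ∃ ε₀ : ℝ, 0 < ε₀ ∧ ∃ γ : ℝ → ℝ, IsGamma γ ∧ ∀ t, 0 ≤ t → θ t ≤ ε₀ → γ t ≤ θ t

lemma gamma_nat {γ : ℝ → ℝ} (h : IsGamma γ) (t : ℝ) (ht : 0 ≤ t) (n : ℕ) : γ (n * t) ≤ n * γ t := by
  induction n with
  | zero =>
    have := (h.zero_iff 0 le_rfl).mpr rfl
    simp [this]
  | succ n ih =>
    have h1 := h.subadd (n * t) t (by positivity) ht
    push_cast
    rw [show ((n:ℝ) + 1) * t = n * t + t by ring]
    linarith

lemma theta_bounds {θ : ℝ → ℝ} (hθ : IsClassA θ) :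
    ∃ η : ℝ, 0 < η ∧ (∀ t, 1 ≤ t → η ≤ θ t) ∧ (∀ t, 0 < t → t ≤ 1 → η / 2 * t ≤ θ t) := by
  obtain ⟨_, ε₀, hε, γ, hγ, hA⟩ := hθ
  have hγ1 : 0 < γ 1 := by
    rcases (hγ.nonneg 1 (by norm_num)).lt_or_eq with h | h
    · exact h
    · exact absurd ((hγ.zero_iff 1 (by norm_num)).mp h.symm) (by norm_num)
  refine ⟨min ε₀ (γ 1), lt_min hε hγ1, ?_, ?_⟩
  · intro t ht
    by_cases hc : θ t ≤ ε₀
    · exact (min_le_right _ _).trans ((hγ.mono 1 t (by norm_num) ht).trans (hA t (by linarith) hc))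
    · exact (min_le_left _ _).trans (not_le.mp hc).le
  · intro t ht0 ht1
    have hη : 0 < min ε₀ (γ 1) := lt_min hε hγ1
    by_cases hc : θ t ≤ ε₀
    · have h1 := hA t ht0.le hc
      set n := ⌈1 / t⌉₊ with hn
      have h2 : 1 / t ≤ n := Nat.le_ceil _
      have h3 : (n : ℝ) < 1 / t + 1 := Nat.ceil_lt_add_one (by positivity)
      have h4 : 1 ≤ n * t := by
        rw [div_le_iff₀ ht0] at h2; exact h2
      have h5 : γ 1 ≤ n * γ t := (hγ.mono 1 _ (by norm_num) h4).trans (gamma_nat hγ t ht0.le n)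
      have h6 : (n : ℝ) * t ≤ 2 := by
        have : (n : ℝ) * t < (1 / t + 1) * t := mul_lt_mul_of_pos_right h3 ht0
        have h7 : (1 / t + 1) * t = 1 + t := by field_simp
        linarith
      have h8 := hγ.nonneg t ht0.le
      have h9 : t * γ 1 ≤ 2 * γ t := by
        calc t * γ 1 ≤ t * (n * γ t) := mul_le_mul_of_nonneg_left h5 ht0.le
          _ = (n * t) * γ t := by ring
          _ ≤ 2 * γ t := mul_le_mul_of_nonneg_right h6 h8
      have h10 : min ε₀ (γ 1) * t ≤ γ 1 * t := mul_le_mul_of_nonneg_right (min_le_right _ _) ht0.le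
      linarith
    · have h1 := (not_le.mp hc).le
      have h2 : min ε₀ (γ 1) ≤ ε₀ := min_le_left _ _
      nlinarith

/-- **Q1 of MP_e93574_an has a positive answer.** -/
theorem result.{u} : ∀ (X : Type u) [MetricSpace X] [CompleteSpace X] [Nonempty X]
    (θ : ℝ → ℝ), IsClassA θ → ∀ T : X → Set X,
    (∀ x, (T x).Nonempty ∧ IsClosed (T x) ∧ Bornology.IsBounded (T x)) →
    (∀ x y, Metric.hausdorffDist (T x) (T y) ≤ dist x y - θ (dist x y)) →
    ∃ x, x ∈ T x := by
  intro X _ _ _ θ hθ T hT hc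
  by_contra hno
  push Not at hno
  obtain ⟨η, hη, hb1, hb2⟩ := theta_bounds hθ
  have hfin : ∀ x y, Metric.hausdorffEDist (T x) (T y) ≠ ⊤ := fun x y =>
    Metric.hausdorffEDist_ne_top_of_nonempty_of_bounded (hT x).1 (hT y).1 (hT x).2.2 (hT y).2.2
  have hθpos : ∀ t, 0 < t → 0 < θ t := by
    intro t ht
    by_cases h1 : 1 ≤ t
    · linarith [hb1 t h1]
    · have := hb2 t ht (not_le.mp h1).le
      have : 0 < η / 2 * t := by positivity
      linarith
  have hstep : ∀ p : {p : X × X // p.2 ∈ T p.1}, ∃ q : {p : X × X // p.2 ∈ T p.1}, q.1.1 = p.1.2 ∧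
      dist q.1.1 q.1.2 ≤ dist p.1.1 p.1.2 - θ (dist p.1.1 p.1.2) / 2 := by
    rintro ⟨⟨x, y⟩, hy⟩
    have hne : x ≠ y := by
      rintro rfl; exact hno x hy
    have hd : 0 < dist x y := dist_pos.mpr hne
    have hlt : Metric.hausdorffDist (T x) (T y) < dist x y - θ (dist x y) / 2 := by
      have h1 := hc x y
      have h2 := hθpos _ hd
      linarith
    obtain ⟨z, hz, hyz⟩ := Metric.exists_dist_lt_of_hausdorffDist_lt hy hlt (hfin x y)
    exact ⟨⟨(y, z), hz⟩, rfl, hyz.le⟩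
  choose st hst1 hst2 using hstep
  obtain ⟨x0⟩ := (inferInstance : Nonempty X)
  obtain ⟨y0, hy0⟩ := (hT x0).1
  set P : ℕ → {p : X × X // p.2 ∈ T p.1} := fun n => st^[n] ⟨(x0, y0), hy0⟩ with hP
  have hPs : ∀ n, P (n + 1) = st (P n) := fun n => Function.iterate_succ_apply' st n _
  set a : ℕ → ℝ := fun n => dist (P n).1.1 (P n).1.2 with ha
  have ha1 : ∀ n, a (n + 1) ≤ a n - θ (a n) / 2 := by
    intro n
    show dist (P (n+1)).1.1 (P (n+1)).1.2 ≤ _
    rw [hPs n]
    exact hst2 (P n)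
  have hapos : ∀ n, 0 < a n := by
    intro n
    apply dist_pos.mpr
    intro h
    have := (P n).2
    rw [← h] at this
    exact hno _ this
  have hx : ∀ n, (P (n + 1)).1.1 = (P n).1.2 := by
    intro n; rw [hPs n]; exact hst1 (P n)
  have hanti : ∀ n, a (n + 1) ≤ a n := by
    intro n
    have := hθpos _ (hapos n)
    linarith [ha1 n]
  obtain ⟨N, hN⟩ : ∃ N, a N ≤ 1 := by
    by_contra hcon
    push Not at hcon
    have h1 : ∀ n : ℕ, a n ≤ a 0 - n * (η / 2) := by
      intro n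
      induction n with
      | zero => simp
      | succ n ih =>
        have := ha1 n
        have := hb1 _ (hcon n).le
        push_cast
        linarith
    obtain ⟨n, hn⟩ := exists_nat_gt (a 0 / (η / 2))
    rw [div_lt_iff₀ (by positivity)] at hn
    have := h1 n
    have := hapos n
    linarith
  have hN' : ∀ k, a (N + k) ≤ 1 := by
    intro k
    induction k with
    | zero => exact hN
    | succ k ih => exact (hanti (N + k)).trans ih
  set r : ℝ := 1 - η / 4 with hr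
  have hgeo1 : ∀ k, a (N + k + 1) ≤ r * a (N + k) := by
    intro k
    have h1 := ha1 (N + k)
    have h2 := hb2 _ (hapos (N + k)) (hN' k)
    rw [hr]; linarith
  have hr0 : 0 < r := by
    have h1 := hgeo1 0
    have h2 := hapos (N + 0 + 1)
    have h3 := hapos (N + 0)
    by_contra hcon
    push Not at hcon
    nlinarith
  have hgeo : ∀ k, a (N + k) ≤ a N * r ^ k := by
    intro k
    induction k with
    | zero => simp
    | succ k ih =>
      have h1 := hgeo1 k
      have h2 : r * a (N + k) ≤ r * (a N * r ^ k) := mul_le_mul_of_nonneg_left ih hr0.le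
      rw [pow_succ]
      have h3 : a (N + (k + 1)) = a (N + k + 1) := rfl
      rw [h3]
      linarith
  have hcau : CauchySeq (fun k => (P (N + k)).1.1) := by
    apply cauchySeq_of_le_geometric r (a N) (by rw [hr]; linarith)
    intro k
    have h1 : (P (N + (k + 1))).1.1 = (P (N + k)).1.2 := hx (N + k)
    rw [h1]
    exact hgeo k
  obtain ⟨xs, hxs⟩ := cauchySeq_tendsto_of_complete hcau
  apply hno xs
  rw [(hT xs).2.1.mem_iff_infDist_zero (hT xs).1]
  apply le_antisymm _ Metric.infDist_nonneg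
  have hlim : Tendsto (fun k => dist xs (P (N + (k + 1))).1.1 + dist (P (N + k)).1.1 xs) atTop (𝓝 (0 + 0)) := by
    apply Tendsto.add
    · have := (tendsto_iff_dist_tendsto_zero.mp (hxs.comp (tendsto_add_atTop_nat 1)))
      simpa [dist_comm] using this
    · exact tendsto_iff_dist_tendsto_zero.mp hxs
  rw [add_zero] at hlim
  apply ge_of_tendsto' hlim
  intro k
  have h1 : (P (N + (k + 1))).1.1 = (P (N + k)).1.2 := hx (N + k)
  have h2 : Metric.infDist (P (N + k)).1.2 (T xs) ≤ Metric.hausdorffDist (T (P (N + k)).1.1) (T xs) :=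
    Metric.infDist_le_hausdorffDist_of_mem (P (N + k)).2 (hfin _ _)
  have h3 := hc (P (N + k)).1.1 xs
  have h4 := hθ.1 (dist (P (N + k)).1.1 xs) dist_nonneg
  have h5 : Metric.infDist xs (T xs) ≤ Metric.infDist (P (N + k)).1.2 (T xs) + dist xs (P (N + k)).1.2 := Metric.infDist_le_infDist_add_dist
  rw [h1]
  linarith

end Pool.Agent.Results.MP_e93574_an.FixedPoint
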